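import Mathlib

/-!
# Phase transitions of infinite generating sets of `ℤ × ℤ/2ℤ`

We determine all phase transitions and all transition sets.
-/

namespace Pool.Agent.Results.MP_a61939_al.AllTransitions

/-- The group `ℤ × ℤ/2ℤ`. -/
abbrev G := ℤ × ZMod 2

/-- `x` is a sum of `r` elements of `A ∪ (-A)`. -/
def IsWord (A : Set G) (r : ℕ) (x : G) : Prop :=
  ∃ l : List G, l.length = r ∧ (∀ y ∈ l, y ∈ A ∨ -y ∈ A) ∧ l.sum = x

/-- `A` is a generating set. -/
def Generates (A : Set G) : Prop := ∀ x, ∃ r, IsWord A r x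

/-- The word length. -/
noncomputable def ell (A : Set G) (x : G) : ℕ := sInf {r | IsWord A r x}

/-- The sphere `S_A(r)`. -/
def Sphere (A : Set G) (r : ℕ) : Set G := {x | ell A x = r}

/-- `A` is an infinite generating set whose phase transition happens at `r` and whose transition
set is `S`: `S = S_A(r)` is not empty and all the spheres `S_A(r')`, `r' > r`, are empty. -/
def Transition (A : Set G) (r : ℕ) (S : Set G) : Prop :=
  A.Infinite ∧ Generates A ∧ S = Sphere A r ∧ S.Nonempty ∧ ∀ r', r < r' → Sphere A r' = ∅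

/-! ### Basic facts -/

lemma IsWord.zero (A : Set G) : IsWord A 0 0 := ⟨[], rfl, by simp, rfl⟩

lemma IsWord.add {A : Set G} {m n : ℕ} {x y : G} (hx : IsWord A m x) (hy : IsWord A n y) :
    IsWord A (m + n) (x + y) := by
  obtain ⟨l, rfl, hl, rfl⟩ := hx
  obtain ⟨l', rfl, hl', rfl⟩ := hy
  refine ⟨l ++ l', by simp, ?_, by simp⟩
  intro s hs
  rcases List.mem_append.1 hs with h | h
  · exact hl s h
  · exact hl' s h

lemma IsWord.single {A : Set G} {x : G} (hx : x ∈ A ∨ -x ∈ A) : IsWord A 1 x :=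
  ⟨[x], rfl, by simpa using hx, by simp⟩

lemma IsWord.neg {A : Set G} {n : ℕ} {x : G} (hx : IsWord A n x) : IsWord A n (-x) := by
  obtain ⟨l, rfl, hl, rfl⟩ := hx
  refine ⟨l.map (fun y => -y), by simp, ?_, ?_⟩
  · intro s hs
    obtain ⟨y, hy, rfl⟩ := List.mem_map.1 hs
    rcases hl y hy with h | h
    · exact Or.inr (by simpa using h)
    · exact Or.inl h
  · induction l with
    | nil => simp
    | cons a l ih =>
      simp only [List.map_cons, List.sum_cons, neg_add_rev]
      rw [ih (fun y hy => hl y (by simp [hy]))]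
      abel

lemma isWord_zero_iff {A : Set G} {x : G} : IsWord A 0 x ↔ x = 0 := by
  constructor
  · rintro ⟨l, hl, _, rfl⟩
    rw [List.length_eq_zero_iff] at hl
    simp [hl]
  · rintro rfl; exact IsWord.zero A

lemma isWord_one_iff {A : Set G} {x : G} : IsWord A 1 x ↔ x ∈ A ∨ -x ∈ A := by
  constructor
  · rintro ⟨l, hl, h, rfl⟩
    obtain ⟨a, rfl⟩ := List.length_eq_one_iff.1 hl
    simpa using h
  · exact IsWord.single

/-- A word of length `m + n` splits. -/
lemma IsWord.split {A : Set G} {m n : ℕ} {x : G} (h : IsWord A (m + n) x) :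
    ∃ y z, IsWord A m y ∧ IsWord A n z ∧ y + z = x := by
  obtain ⟨l, hl, h, rfl⟩ := h
  refine ⟨(l.take m).sum, (l.drop m).sum, ⟨l.take m, ?_, ?_, rfl⟩, ⟨l.drop m, ?_, ?_, rfl⟩, ?_⟩
  · simp [hl]
  · exact fun y hy => h y (List.mem_of_mem_take hy)
  · simp [hl]
  · exact fun y hy => h y (List.mem_of_mem_drop hy)
  · rw [← List.sum_append, List.take_append_drop]

lemma ell_le {A : Set G} {r : ℕ} {x : G} (h : IsWord A r x) : ell A x ≤ r := Nat.sInf_le h

lemma isWord_ell {A : Set G} (hA : Generates A) (x : G) : IsWord A (ell A x) x :=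
  Nat.sInf_mem (s := {r | IsWord A r x}) (hA x)

lemma ell_zero (A : Set G) : ell A 0 = 0 := Nat.le_zero.1 (ell_le (IsWord.zero A))

lemma ell_neg {A : Set G} (hA : Generates A) (x : G) : ell A (-x) = ell A x := by
  apply le_antisymm
  · exact ell_le (isWord_ell hA x).neg
  · have := ell_le (isWord_ell hA (-x)).neg
    rwa [neg_neg] at this

/-- Length bound: if all spheres beyond `r` are empty, every element has length at most `r`. -/
lemma ell_le_of_transition {A : Set G} {r : ℕ} {S : Set G} (h : Transition A r S) (x : G) :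
    ell A x ≤ r := by
  by_contra hx
  push Not at hx
  have := h.2.2.2.2 _ hx
  have h1 : x ∈ Sphere A (ell A x) := rfl
  rw [this] at h1
  exact h1

/-! ### Symmetric sets containing zero -/

/-- `B` is symmetric and contains zero. -/
def Sym0 (B : Set G) : Prop := (0 : G) ∈ B ∧ ∀ x ∈ B, -x ∈ B

lemma Sym0.letter {B : Set G} (hB : Sym0 B) {y : G} : (y ∈ B ∨ -y ∈ B) ↔ y ∈ B :=
  ⟨fun h => h.elim id (fun h => by simpa using hB.2 _ h), Or.inl⟩

lemma Sym0.mono {B : Set G} (hB : Sym0 B) {m n : ℕ} (h : m ≤ n) {x : G} (hx : IsWord B m x) :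
    IsWord B n x := by
  induction n, h using Nat.le_induction with
  | base => exact hx
  | succ n _ ih =>
    have := ih.add (IsWord.single (A := B) (Or.inl hB.1))
    rwa [add_zero] at this

lemma Sym0.ell_le_iff {B : Set G} (hB : Sym0 B) (hg : Generates B) {n : ℕ} {x : G} :
    ell B x ≤ n ↔ IsWord B n x :=
  ⟨fun h => hB.mono h (isWord_ell hg x), ell_le⟩

/-- A symmetric infinite set `B` containing zero whose `k`-fold sum set is the complement of
the nonempty set `S`, and whose `k+1`-fold sum set is everything, realises the transition set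
`S` at `k + 1`. -/
lemma Sym0.transition {B : Set G} (hB : Sym0 B) (hinf : B.Infinite) {k : ℕ} {S : Set G}
    (hS : S.Nonempty) (h1 : ∀ x, IsWord B k x ↔ x ∉ S) (h2 : ∀ x, IsWord B (k + 1) x) :
    Transition B (k + 1) S := by
  have hg : Generates B := fun x => ⟨k + 1, h2 x⟩
  have h3 : ∀ x, ell B x ≤ k + 1 := fun x => ell_le (h2 x)
  refine ⟨hinf, hg, ?_, hS, ?_⟩
  · ext x
    simp only [Sphere, Set.mem_ofPred_eq]
    constructor
    · intro hx
      refine le_antisymm (h3 x) ?_
      by_contra hcon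
      have : ell B x ≤ k := by omega
      exact (h1 x).1 ((hB.ell_le_iff hg).1 this) hx
    · intro hx
      by_contra hcon
      have := (hB.ell_le_iff hg).2 ((h1 x).2 hcon)
      omega
  · intro r' hr'
    ext x
    simp only [Sphere, Set.mem_ofPred_eq, Set.mem_empty_iff_false, iff_false]
    have := h3 x
    omega

/-- `S` is thin: for every `M` and every finite `F` there is an `x` such that `c • x + f ∉ S`
for all `f ∈ F` and all integers `c ≠ 0` with `|c| ≤ M`. -/
def Thin (S : Set G) : Prop :=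
  ∀ (M : ℕ) (F : Set G), F.Finite →
    ∃ x : G, ∀ c : ℤ, c ≠ 0 → |c| ≤ M → ∀ f ∈ F, c • x + f ∉ S

lemma exists_bound {F : Set G} (hF : F.Finite) : ∃ M : ℕ, ∀ s ∈ F, |s.1| ≤ M := by
  obtain ⟨M, hM⟩ := (hF.image (fun s : G => |s.1|)).bddAbove
  exact ⟨M.toNat, fun s hs => (hM ⟨s, hs, rfl⟩).trans (Int.self_le_toNat M)⟩

lemma thin_of_finite {S : Set G} (hS : S.Finite) : Thin S := by
  intro M F hF
  obtain ⟨MS, hMS⟩ := exists_bound hS
  obtain ⟨MF, hMF⟩ := exists_bound hF
  refine ⟨((MS : ℤ) + MF + 1, 0), fun c hc _ f hf hmem => ?_⟩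
  have h1 := hMS _ hmem
  have h2 := hMF f hf
  simp only [Prod.fst_add, Prod.smul_fst, smul_eq_mul] at h1
  have h3 : ((MS : ℤ) + MF + 1) ≤ |c * ((MS : ℤ) + MF + 1)| := by
    rw [abs_mul, abs_of_nonneg (a := (MS : ℤ) + MF + 1) (by positivity)]
    have := Int.one_le_abs hc
    have h5 : (0 : ℤ) ≤ (MS : ℤ) + MF + 1 := by positivity
    nlinarith
  have h4 := abs_sub (c * ((MS : ℤ) + MF + 1) + f.1) f.1
  rw [add_sub_cancel_right] at h4
  linarith

lemma Thin.compl_infinite {S : Set G} (hS : Thin S) : Sᶜ.Infinite := by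
  intro hfin
  obtain ⟨K, hK⟩ := exists_bound hfin
  obtain ⟨x, hx⟩ := hS 1 {0, (2 * (K : ℤ) + 1, 0)} (Set.toFinite _)
  have h1 := hK _ (hx 1 one_ne_zero (by simp) 0 (by simp))
  have h2 := hK _ (hx 1 one_ne_zero (by simp) (2 * (K : ℤ) + 1, 0) (by simp))
  simp only [one_smul, add_zero, Prod.fst_add] at h1 h2
  rw [abs_le] at h1 h2
  linarith [h1.1, h2.2]

lemma finite_words {F : Set G} (hF : F.Finite) (hF0 : Sym0 F) (n : ℕ) :
    {x | IsWord F n x}.Finite := by
  induction n with
  | zero =>
    apply (Set.finite_singleton (0 : G)).subset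
    intro x hx
    exact isWord_zero_iff.1 hx
  | succ n ih =>
    apply (Set.Finite.image2 (fun a b => a + b) ih hF).subset
    intro x hx
    obtain ⟨y, z, hy, hz, rfl⟩ := IsWord.split hx
    exact ⟨y, hy, z, hF0.letter.1 (isWord_one_iff.1 hz), rfl⟩

lemma IsWord.mono_set {A B : Set G} (h : A ⊆ B) {n : ℕ} {x : G} (hx : IsWord A n x) :
    IsWord B n x := by
  obtain ⟨l, h1, h2, h3⟩ := hx
  exact ⟨l, h1, fun y hy => (h2 y hy).imp (fun a => h a) (fun a => h a), h3⟩

/-! ### The greedy construction -/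

section greedy

variable {S : Set G}

lemma step (hS : Thin S) (hSym : ∀ x ∈ S, -x ∈ S) {k : ℕ} (hk : 1 ≤ k) (F : Set G)
    (hF : F.Finite) (hF0 : Sym0 F) (hd : ∀ x, IsWord F k x → x ∉ S) (g : G) (hg : g ∉ S)
    (s : G) :
    ∃ F' : Set G, F'.Finite ∧ Sym0 F' ∧ F ⊆ F' ∧ (∀ x, IsWord F' k x → x ∉ S) ∧
      IsWord F' k g ∧ ∃ b ∈ F', s - b ∉ S := by
  -- the finite set of shifts
  set W : Set G := {x | IsWord F k x} with hW
  have hWf : W.Finite := finite_words hF hF0 k
  set D : Set ℤ := {d | |d| ≤ k} with hD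
  have hDf : D.Finite := by
    apply (Set.finite_Icc (-(k : ℤ)) k).subset
    intro d hd
    exact abs_le.1 hd
  set F₁ : Set G := Set.image2 (fun (d : ℤ) (f : G) => d • g + f) D W with hF₁
  obtain ⟨x, hx⟩ := hS (k * k + 1) (F₁ ∪ {s}) ((Set.Finite.image2 _ hDf hWf).union
    (Set.finite_singleton s))
  set y : G := g - (k - 1 : ℤ) • x with hy
  set F' : Set G := F ∪ {x, -x, y, -y} with hF'
  have hFF' : F ⊆ F' := Set.subset_union_left
  have hsymF' : Sym0 F' := by
    refine ⟨hFF' hF0.1, ?_⟩
    rintro z (hz | hz)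
    · exact hFF' (hF0.2 z hz)
    · right
      simp only [Set.mem_insert_iff, Set.mem_singleton_iff] at hz ⊢
      rcases hz with rfl | rfl | rfl | rfl <;> simp
  -- shape of sums of elements of `F'`
  have shape : ∀ (n : ℕ) (z : G), IsWord F' n z → ∃ (c d : ℤ) (j : ℕ) (f : G), IsWord F j f ∧
      |c| + |d| + j ≤ n ∧ z = c • x + d • y + f := by
    rintro n z ⟨l, rfl, hl, rfl⟩
    induction l with
    | nil => exact ⟨0, 0, 0, 0, IsWord.zero F, by simp, by simp⟩
    | cons a l ih =>
      obtain ⟨c, d, j, f, h1, h2, h3⟩ := ih (fun z hz => hl z (by simp [hz]))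
      have ha := hsymF'.letter.1 (hl a (by simp))
      rw [List.sum_cons, List.length_cons, h3]
      push_cast
      rcases ha with ha | ha
      · refine ⟨c, d, j + 1, f + a, h1.add (IsWord.single (Or.inl ha)), ?_, by abel⟩
        push_cast; linarith
      · simp only [Set.mem_insert_iff, Set.mem_singleton_iff] at ha
        rcases ha with rfl | rfl | rfl | rfl
        · refine ⟨c + 1, d, j, f, h1, ?_, by rw [add_smul, one_smul]; abel⟩
          have := abs_add_le c 1
          rw [abs_one] at this; linarith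
        · refine ⟨c + (-1), d, j, f, h1, ?_, by rw [add_smul, neg_smul, one_smul]; abel⟩
          have := abs_add_le c (-1)
          rw [abs_neg, abs_one] at this; linarith
        · refine ⟨c, d + 1, j, f, h1, ?_, by rw [add_smul, one_smul]; abel⟩
          have := abs_add_le d 1
          rw [abs_one] at this; linarith
        · refine ⟨c, d + (-1), j, f, h1, ?_, by rw [add_smul, neg_smul, one_smul]; abel⟩
          have := abs_add_le d (-1)
          rw [abs_neg, abs_one] at this; linarith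
  refine ⟨F', hF.union (Set.toFinite _), hsymF', hFF', ?_, ?_, ?_⟩
  · intro z hz hzS
    obtain ⟨c, d, j, f, h1, h2, h3⟩ := shape k z hz
    have hj0 : (0 : ℤ) ≤ j := by positivity
    have hc0 := abs_nonneg c
    have hd0 := abs_nonneg d
    have hj : (j : ℤ) ≤ k := by linarith
    have hck : |c| ≤ k := by linarith
    have hdk : |d| ≤ k := by linarith
    have hkpos : (1 : ℤ) ≤ k := by exact_mod_cast hk
    have hzf : z = (c - (k - 1) * d) • x + (d • g + f) := by
      rw [h3, hy]
      module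
    have hco : c - (k - 1) * d = 0 := by
      by_contra hne
      refine hx (c - (k - 1) * d) hne ?_ (d • g + f) ?_ (hzf ▸ hzS)
      · have e1 := abs_sub c ((k - 1) * d)
        have e2 : |((k : ℤ) - 1) * d| ≤ (k - 1) * k := by
          rw [abs_mul, abs_of_nonneg (by linarith : (0 : ℤ) ≤ (k : ℤ) - 1)]
          exact mul_le_mul_of_nonneg_left hdk (by linarith)
        push_cast
        nlinarith
      · left
        exact ⟨d, hdk, f, hF0.mono (by exact_mod_cast hj) h1, rfl⟩
    have hc : c = (k - 1) * d := by linarith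
    have hzg : z = d • g + f := by
      rw [hzf, hco, zero_smul, zero_add]
    have hk1 : |c| = (k - 1) * |d| := by
      rw [hc, abs_mul, abs_of_nonneg]
      linarith
    have h7 : (k : ℤ) * |d| + j ≤ k := by rw [hk1] at h2; linarith
    rcases eq_or_ne d 0 with rfl | hd0
    · rw [zero_smul, zero_add] at hzg
      subst hzg
      exact hd z (hF0.mono (by exact_mod_cast hj) h1) hzS
    · have h8 : 1 ≤ |d| := Int.one_le_abs hd0
      have h9 : |d| = 1 := by
        refine le_antisymm ?_ h8
        by_contra hlt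
        push Not at hlt
        nlinarith
      have h10 : j = 0 := by
        rw [h9, mul_one] at h7
        have : (j : ℤ) ≤ 0 := by linarith
        exact_mod_cast le_antisymm this (by positivity)
      subst h10
      rw [isWord_zero_iff] at h1
      subst h1
      rw [add_zero] at hzg
      rcases (abs_eq (zero_le_one)).1 h9 with rfl | rfl
      · rw [one_smul] at hzg; exact hg (hzg ▸ hzS)
      · rw [neg_smul, one_smul] at hzg
        have := hSym z hzS
        rw [hzg, neg_neg] at this
        exact hg this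
  · have hxF : x ∈ F' := Or.inr (by simp)
    have hyF : y ∈ F' := Or.inr (by simp)
    have h1 : ∀ n : ℕ, IsWord F' n ((n : ℤ) • x) := by
      intro n
      induction n with
      | zero => simpa using IsWord.zero F'
      | succ n ih =>
        have := ih.add (IsWord.single (A := F') (Or.inl hxF))
        convert this using 1
        push_cast
        rw [add_smul, one_smul]
    have h2 := (h1 (k - 1)).add (IsWord.single (A := F') (Or.inl hyF))
    rw [Nat.sub_add_cancel hk] at h2
    convert h2 using 1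
    rw [hy]
    push_cast [Nat.cast_sub hk]
    abel
  · refine ⟨x, Or.inr (by simp), ?_⟩
    have := hx (-1) (by norm_num) (by rw [abs_neg, abs_one]; push_cast; nlinarith) s
      (Or.inr rfl)
    rw [neg_smul, one_smul] at this
    rwa [sub_eq_neg_add]

lemma exists_chain (hS : Thin S) (hSym : ∀ x ∈ S, -x ∈ S) (h0 : (0 : G) ∉ S) {k : ℕ}
    (hk : 1 ≤ k) :
    ∃ F : ℕ → Set G, Monotone F ∧ (∀ n, Sym0 (F n)) ∧ (∀ n x, IsWord (F n) k x → x ∉ S) ∧
      (∀ g, g ∉ S → ∃ n, IsWord (F n) k g) ∧ (∀ s, ∃ n, ∃ b ∈ F n, s - b ∉ S) := by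
  classical
  obtain ⟨e, he⟩ := exists_surjective_nat G
  let P := {F : Set G // F.Finite ∧ Sym0 F ∧ ∀ x, IsWord F k x → x ∉ S}
  have hstep : ∀ (n : ℕ) (F : P), ∃ F' : P, F.1 ⊆ F'.1 ∧ (e n ∉ S → IsWord F'.1 k (e n)) ∧
      ∃ b ∈ F'.1, e n - b ∉ S := by
    intro n F
    by_cases hn : e n ∈ S
    · obtain ⟨F', h1, h2, h3, h4, -, h5⟩ := step hS hSym hk F.1 F.2.1 F.2.2.1 F.2.2.2 0 h0 (e n)
      exact ⟨⟨F', h1, h2, h4⟩, h3, fun h => absurd hn h, h5⟩
    · obtain ⟨F', h1, h2, h3, h4, h6, h5⟩ :=
        step hS hSym hk F.1 F.2.1 F.2.2.1 F.2.2.2 (e n) hn (e n)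
      exact ⟨⟨F', h1, h2, h4⟩, h3, fun _ => h6, h5⟩
  choose nxt h1 h2 h3 using hstep
  have hbase : ∀ x, IsWord ({0} : Set G) k x → x ∉ S := by
    rintro x ⟨l, -, hl, rfl⟩
    have : l.sum = 0 := by
      apply List.sum_eq_zero
      intro y hy
      rcases hl y hy with h | h
      · exact h
      · simpa using h
    rwa [this]
  let F : ℕ → P := fun n => Nat.rec ⟨{0}, Set.finite_singleton _, ⟨rfl, by simp⟩, hbase⟩
    (fun n F => nxt n F) n
  have hsucc : ∀ n, F (n + 1) = nxt n (F n) := fun n => rfl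
  have hmono : Monotone (fun n => (F n).1) :=
    monotone_nat_of_le_succ (fun n => by rw [hsucc]; exact h1 n (F n))
  refine ⟨fun n => (F n).1, hmono, fun n => (F n).2.2.1, fun n => (F n).2.2.2, ?_, ?_⟩
  · intro g hg
    obtain ⟨n, rfl⟩ := he g
    exact ⟨n + 1, h2 n (F n) hg⟩
  · intro s
    obtain ⟨n, rfl⟩ := he s
    exact ⟨n + 1, h3 n (F n)⟩

lemma isWord_iUnion {F : ℕ → Set G} (hF : Monotone F) (k : ℕ) :
    ∀ x, IsWord (⋃ n, F n) k x → ∃ n, IsWord (F n) k x := by
  induction k with
  | zero =>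
    intro x hx
    rw [isWord_zero_iff] at hx
    subst hx
    exact ⟨0, IsWord.zero _⟩
  | succ k ih =>
    intro x hx
    obtain ⟨y, z, hy, hz, rfl⟩ := IsWord.split hx
    obtain ⟨n₁, h1⟩ := ih y hy
    obtain ⟨n₂, h2⟩ : ∃ n, IsWord (F n) 1 z := by
      rw [isWord_one_iff] at hz
      rcases hz with hz | hz
      · obtain ⟨n, hn⟩ := Set.mem_iUnion.1 hz
        exact ⟨n, IsWord.single (Or.inl hn)⟩
      · obtain ⟨n, hn⟩ := Set.mem_iUnion.1 hz
        exact ⟨n, IsWord.single (Or.inr hn)⟩
    exact ⟨max n₁ n₂, (h1.mono_set (hF (le_max_left _ _))).add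
      (h2.mono_set (hF (le_max_right _ _)))⟩

/-- Every nonempty thin symmetric set `S` with `0 ∉ S` is a transition set at every `r ≥ 2`. -/
theorem thin_occurs (hS : Thin S) (hSym : ∀ x ∈ S, -x ∈ S) (h0 : (0 : G) ∉ S)
    (hne : S.Nonempty) {k : ℕ} (hk : 1 ≤ k) : ∃ A, Transition A (k + 1) S := by
  obtain ⟨F, hmono, hsym, havoid, hcov, hcov2⟩ := exists_chain hS hSym h0 hk
  have hB : Sym0 (⋃ n, F n) := by
    refine ⟨Set.mem_iUnion.2 ⟨0, (hsym 0).1⟩, fun x hx => ?_⟩
    obtain ⟨n, hn⟩ := Set.mem_iUnion.1 hx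
    exact Set.mem_iUnion.2 ⟨n, (hsym n).2 x hn⟩
  have h1 : ∀ x, IsWord (⋃ n, F n) k x ↔ x ∉ S := by
    intro x
    constructor
    · intro hx
      obtain ⟨n, hn⟩ := isWord_iUnion hmono k x hx
      exact havoid n x hn
    · intro hx
      obtain ⟨n, hn⟩ := hcov x hx
      exact hn.mono_set (Set.subset_iUnion F n)
  refine ⟨⋃ n, F n, hB.transition ?_ hne h1 ?_⟩
  · intro hfin
    apply hS.compl_infinite
    have := finite_words hfin hB k
    convert this using 1
    ext x
    exact (h1 x).symm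
  · intro x
    obtain ⟨n, b, hb, hsb⟩ := hcov2 x
    have := ((h1 (x - b)).2 hsb).add
      (IsWord.single (A := ⋃ n, F n) (Or.inl (Set.mem_iUnion.2 ⟨n, hb⟩)))
    rwa [sub_add_cancel] at this

end greedy

/-! ### The cases `r = 1` and `r = 2` -/

/-- The condition for a set to be a transition set at `r = 2`. -/
def Good (S : Set G) : Prop :=
  S.Nonempty ∧ (0 : G) ∉ S ∧ (∀ x ∈ S, -x ∈ S) ∧ Sᶜ.Infinite ∧
    ∀ x, ∃ y z, y ∉ S ∧ z ∉ S ∧ y + z = x

lemma good_occurs {S : Set G} (h : Good S) : Transition Sᶜ 2 S := by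
  obtain ⟨hne, h0, hsym, hinf, hsum⟩ := h
  have hB : Sym0 Sᶜ := by
    refine ⟨h0, fun x hx hx' => hx ?_⟩
    have := hsym _ hx'
    rwa [neg_neg] at this
  refine hB.transition hinf (k := 1) hne (fun x => ?_) (fun x => ?_)
  · rw [isWord_one_iff, hB.letter]; rfl
  · obtain ⟨y, z, hy, hz, rfl⟩ := hsum x
    exact (IsWord.single (A := Sᶜ) (Or.inl hy)).add (IsWord.single (A := Sᶜ) (Or.inl hz))

lemma univ_transition : Transition Set.univ 1 ({0}ᶜ : Set G) := by
  have hB : Sym0 (Set.univ : Set G) := ⟨trivial, fun _ _ => trivial⟩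
  refine hB.transition Set.infinite_univ (k := 0) ⟨(1, 0), by simp⟩ (fun x => ?_) (fun x => ?_)
  · rw [isWord_zero_iff]; simp
  · exact IsWord.single (Or.inl trivial)

lemma infinite_compl_zero : ({0}ᶜ : Set G).Infinite :=
  (Set.finite_singleton (0 : G)).infinite_compl

/-- Necessary conditions at `r = 0`. -/
lemma not_transition_zero {A S : Set G} (h : Transition A 0 S) : False := by
  have h1 : ∀ x : G, x = 0 := by
    intro x
    have h2 := ell_le_of_transition h x
    have h3 := isWord_ell h.2.1 x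
    rw [Nat.le_zero.1 h2] at h3
    exact isWord_zero_iff.1 h3
  have := h1 (1, 0)
  simp [Prod.ext_iff] at this

lemma transition_one {A S : Set G} (h : Transition A 1 S) : S = {0}ᶜ := by
  have h2 := h.2.2.1
  rw [h2]
  ext x
  simp only [Sphere, Set.mem_ofPred_eq, Set.mem_compl_iff, Set.mem_singleton_iff]
  constructor
  · rintro hx rfl
    rw [ell_zero] at hx
    exact zero_ne_one hx
  · intro hx
    have h3 := ell_le_of_transition h x
    have h4 : ell A x ≠ 0 := by
      intro h5
      have h6 := isWord_ell h.2.1 x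
      rw [h5, isWord_zero_iff] at h6
      exact hx h6
    omega

lemma transition_good {A S : Set G} {r : ℕ} (h : Transition A r S) (hr : 2 ≤ r) : Good S := by
  have hg := h.2.1
  have hS := h.2.2.1
  have hle := ell_le_of_transition h
  have hlt : ∀ x, ell A x < r → x ∉ S := by
    intro x hx hxS
    rw [hS] at hxS
    simp only [Sphere, Set.mem_ofPred_eq] at hxS
    omega
  refine ⟨h.2.2.2.1, ?_, ?_, ?_, ?_⟩
  · apply hlt; rw [ell_zero]; omega
  · intro x hx
    rw [hS] at hx ⊢
    simp only [Sphere, Set.mem_ofPred_eq] at hx ⊢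
    rw [ell_neg hg, hx]
  · apply h.1.mono
    intro x hx
    apply hlt
    have := ell_le (IsWord.single (A := A) (Or.inl hx))
    omega
  · intro x
    by_cases hx : ell A x ≤ 1
    · exact ⟨x, 0, hlt x (by omega), hlt 0 (by rw [ell_zero]; omega), add_zero x⟩
    · have h1 := isWord_ell hg x
      obtain ⟨n, hn⟩ : ∃ n, ell A x = n + 1 := ⟨ell A x - 1, by omega⟩
      have h2 := hle x
      rw [hn] at h1
      obtain ⟨y, z, hy, hz, hyz⟩ := h1.split
      refine ⟨y, z, hlt y ?_, hlt z ?_, hyz⟩
      · have := ell_le hy; omega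
      · have := ell_le hz; omega

/-! ### Examples of sets -/

lemma exists_sym_finite (n : ℕ) : ∃ S : Set G, S.Finite ∧ S.encard = n + 1 ∧ (0 : G) ∉ S ∧
    ∀ x ∈ S, -x ∈ S := by
  induction n using Nat.strong_induction_on with
  | _ n ih =>
    rcases n with _ | _ | n
    · refine ⟨{(0, 1)}, Set.finite_singleton _, by simp, ?_, ?_⟩
      · simp [Prod.ext_iff]
      · intro x hx
        rw [Set.mem_singleton_iff] at hx ⊢
        subst hx
        decide
    · refine ⟨{(1, 0), (-1, 0)}, Set.toFinite _, ?_, ?_, ?_⟩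
      · rw [Set.encard_pair (by simp [Prod.ext_iff])]; norm_num
      · simp [Prod.ext_iff]
      · intro x hx
        simp only [Set.mem_insert_iff, Set.mem_singleton_iff] at hx ⊢
        rcases hx with rfl | rfl
        · right; simp
        · left; simp
    · obtain ⟨S, h1, h2, h3, h4⟩ := ih n (by omega)
      obtain ⟨K, hK⟩ := exists_bound h1
      have hK0 : (0 : ℤ) ≤ K := by positivity
      have e1 : (((K : ℤ) + 1, 0) : G) ∉ S := by
        intro h
        have := hK _ h
        simp only at this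
        have := le_abs_self ((K : ℤ) + 1)
        linarith
      have e2 : ((-((K : ℤ) + 1), 0) : G) ∉ insert (((K : ℤ) + 1, 0) : G) S := by
        rintro (h | h)
        · rw [Prod.ext_iff] at h
          have := h.1
          simp only at this
          linarith
        · have := hK _ h
          simp only at this
          rw [abs_neg] at this
          have := le_abs_self ((K : ℤ) + 1)
          linarith
      refine ⟨insert (-((K : ℤ) + 1), 0) (insert ((K : ℤ) + 1, 0) S),
        (h1.insert _).insert _, ?_, ?_, ?_⟩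
      · rw [Set.encard_insert_of_notMem e2, Set.encard_insert_of_notMem e1, h2]
        push_cast
        rfl
      · simp only [Set.mem_insert_iff, not_or]
        refine ⟨?_, ?_, h3⟩
        · intro h
          have := (Prod.ext_iff.1 h).1
          simp only [Prod.fst_zero] at this
          linarith
        · intro h
          have := (Prod.ext_iff.1 h).1
          simp only [Prod.fst_zero] at this
          linarith
      · intro x hx
        simp only [Set.mem_insert_iff] at hx ⊢
        rcases hx with rfl | rfl | hx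
        · right; left; simp
        · left; simp
        · right; right; exact h4 x hx

/-- An infinite thin set. -/
def Fac : Set G := {x | ∃ m : ℕ, 1 ≤ m ∧ |x.1| = m.factorial ∧ x.2 = 0}

lemma fac_sym : ∀ x ∈ Fac, -x ∈ Fac := by
  rintro x ⟨m, h1, h2, h3⟩
  exact ⟨m, h1, by simpa using h2, by simp [h3]⟩

lemma fac_zero : (0 : G) ∉ Fac := by
  rintro ⟨m, h1, h2, h3⟩
  have := Nat.factorial_pos m
  simp only [Prod.fst_zero, abs_zero] at h2
  have h4 : (m.factorial : ℤ) = 0 := h2.symm
  have : m.factorial = 0 := by exact_mod_cast h4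
  omega

lemma fac_infinite : Fac.Infinite := by
  intro hfin
  obtain ⟨K, hK⟩ := exists_bound hfin
  have h1 := hK (((K + 3).factorial : ℤ), 0) ⟨K + 3, by omega, by simp, rfl⟩
  have h2 : K + 3 ≤ (K + 3).factorial := Nat.self_le_factorial _
  simp only at h1
  have h3 : (((K + 3).factorial : ℕ) : ℤ) ≤ K := le_trans (le_abs_self _) h1
  have : (K + 3).factorial ≤ K := by exact_mod_cast h3
  omega

lemma fac_thin : Thin Fac := by
  intro M F hF
  obtain ⟨K, hK⟩ := exists_bound hF
  set m : ℕ := 2 * M + K + 2 with hm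
  have hfac : K < m.factorial := lt_of_lt_of_le (by omega) (Nat.self_le_factorial m)
  refine ⟨(2 * (m.factorial : ℤ), 0), fun c hc hcM f hf => ?_⟩
  rintro ⟨j, hj, h1, -⟩
  simp only [Prod.fst_add, Prod.smul_fst, smul_eq_mul] at h1
  have h2 := hK f hf
  have hpos : (0 : ℤ) < m.factorial := by exact_mod_cast Nat.factorial_pos m
  have hKm : (K : ℤ) < m.factorial := by exact_mod_cast hfac
  have hc1 := Int.one_le_abs hc
  have h3 : |c * (2 * (m.factorial : ℤ))| = |c| * (2 * m.factorial) := by
    rw [abs_mul, abs_of_nonneg (a := 2 * (m.factorial : ℤ)) (by positivity)]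
  have h4 := abs_sub (c * (2 * (m.factorial : ℤ)) + f.1) f.1
  rw [add_sub_cancel_right, h3, h1] at h4
  have h5 := abs_add_le (c * (2 * (m.factorial : ℤ))) f.1
  rw [h3, h1] at h5
  have h6 : (m.factorial : ℤ) < j.factorial := by nlinarith
  have h7 : (j.factorial : ℤ) < (m + 1).factorial := by
    rw [Nat.factorial_succ]
    push_cast
    have : |c| * (2 * (m.factorial : ℤ)) ≤ M * (2 * m.factorial) :=
      mul_le_mul_of_nonneg_right hcM (by positivity)
    have hmM : (m : ℤ) = 2 * M + K + 2 := by rw [hm]; push_cast; ring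
    rw [hmM]
    have hK0 : (0 : ℤ) ≤ K := by positivity
    nlinarith
  have h6' : m.factorial < j.factorial := by exact_mod_cast h6
  have h7' : j.factorial < (m + 1).factorial := by exact_mod_cast h7
  have h8 : m < j := by
    by_contra hcon
    exact absurd (Nat.factorial_le (not_lt.1 hcon)) (not_le.2 h6')
  have h9 : j < m + 1 := by
    by_contra hcon
    exact absurd (Nat.factorial_le (not_lt.1 hcon)) (not_le.2 h7')
  omega

/-- `S` has lower asymptotic density zero. -/
def LowerDensityZero (S : Set G) : Prop :=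
  ∀ ε : ℝ, 0 < ε → ∀ N₀ : ℕ, ∃ N : ℕ, N₀ ≤ N ∧ (({x ∈ S | |x.1| ≤ N}.ncard : ℕ) : ℝ) ≤ ε * N

/-- Sets of lower asymptotic density zero are thin. -/
lemma thin_of_density {S : Set G} (hS : LowerDensityZero S) : Thin S := by
  classical
  intro M F hF
  obtain ⟨K, hK⟩ := exists_bound hF
  set q := hF.toFinset.card with hq
  set ε : ℝ := 1 / (4 * (M + 1) * ((2 * M + 1) * (q + 1))) with hε
  have hεpos : 0 < ε := by positivity
  obtain ⟨N, hN, hcard⟩ := hS ε hεpos (2 * (K + M + 2))
  set T : Set G := {x ∈ S | |x.1| ≤ N} with hT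
  have hTf : T.Finite := by
    apply ((Set.finite_Icc (-(N : ℤ)) N).prod (Set.finite_univ (α := ZMod 2))).subset
    rintro ⟨a, b⟩ ⟨-, h⟩
    exact ⟨abs_le.1 h, trivial⟩
  set L : ℕ := (N - K) / (M + 1) with hL
  have hdm := Nat.div_add_mod (N - K) (M + 1)
  have hml : (N - K) % (M + 1) < M + 1 := Nat.mod_lt (N - K) (Nat.succ_pos M)
  rw [← hL] at hdm
  by_contra hcon
  push Not at hcon
  have hX : ∀ X ∈ Finset.Icc 1 L, ∃ p : ℤ × G × G,
      p ∈ (Finset.Icc (-(M : ℤ)) M) ×ˢ hF.toFinset ×ˢ hTf.toFinset ∧ p.1 ≠ 0 ∧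
        p.1 • ((X : ℤ), (0 : ZMod 2)) + p.2.1 = p.2.2 := by
    intro X hX
    obtain ⟨c, hc, hcM, f, hf, hmem⟩ := hcon ((X : ℤ), 0)
    refine ⟨(c, f, c • ((X : ℤ), (0 : ZMod 2)) + f), ?_, hc, rfl⟩
    simp only [Finset.mem_product, Finset.mem_Icc, Set.Finite.mem_toFinset]
    refine ⟨abs_le.1 hcM, hf, hmem, ?_⟩
    simp only [Prod.fst_add, Prod.smul_fst, smul_eq_mul]
    have e1 := abs_add_le (c * (X : ℤ)) f.1
    have e2 := hK f hf
    have e3 : |c * (X : ℤ)| ≤ M * L := by
      rw [abs_mul, abs_of_nonneg (a := (X : ℤ)) (by positivity)]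
      have : (X : ℤ) ≤ L := by exact_mod_cast (Finset.mem_Icc.1 hX).2
      exact mul_le_mul hcM this (by positivity) (by positivity)
    have e4 : M * L + K ≤ N := by
      have : (M + 1) * L ≤ N - K := by omega
      have h5 : M * L ≤ (M + 1) * L := Nat.mul_le_mul_right _ (Nat.le_succ M)
      omega
    have e5 : (M : ℤ) * L + K ≤ N := by exact_mod_cast e4
    linarith
  choose! φ h1 h2 h3 using hX
  have hinj : Set.InjOn φ (Finset.Icc 1 L) := by
    intro X hX X' hX' h
    have e1 := h3 X hX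
    have e2 := h3 X' hX'
    rw [h] at e1
    have e3 := congrArg Prod.fst (e1.trans e2.symm)
    simp only [Prod.fst_add, Prod.smul_fst, smul_eq_mul, add_left_inj] at e3
    exact_mod_cast mul_left_cancel₀ (h2 X' hX') e3
  have hle := Finset.card_le_card_of_injOn φ (fun X hX => h1 X hX) hinj
  rw [Nat.card_Icc, Finset.card_product, Finset.card_product, Int.card_Icc, ← hq,
    ← Set.ncard_eq_toFinset_card T hTf] at hle
  have hle2 : L ≤ (2 * M + 1) * (q * T.ncard) := by
    have e : ((M : ℤ) + 1 - -(M : ℤ)).toNat = 2 * M + 1 := by omega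
    rw [e] at hle
    simpa using hle
  have hle3 : (L : ℝ) ≤ (2 * M + 1) * (q * T.ncard) := by exact_mod_cast hle2
  have hN0 : (0 : ℝ) ≤ N := by positivity
  have hM0 : (0 : ℝ) ≤ M := by positivity
  have hq0 : (0 : ℝ) ≤ q := by positivity
  have hle4 : (L : ℝ) ≤ (2 * M + 1) * ((q + 1) * (ε * N)) := by
    refine hle3.trans ?_
    apply mul_le_mul_of_nonneg_left _ (by positivity)
    exact mul_le_mul (by linarith) hcard (by positivity) (by positivity)
  have hle5 : (M + 1 : ℝ) * L ≤ N / 4 := by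
    have e : (M + 1 : ℝ) * ((2 * M + 1) * ((q + 1) * (ε * N))) = N / 4 := by
      rw [hε]
      field_simp
    rw [← e]
    exact mul_le_mul_of_nonneg_left hle4 (by positivity)
  have hle6 : (N : ℝ) < (M + 1) * L + (M + 1) + K := by
    have : N < (M + 1) * L + (M + 1) + K := by omega
    exact_mod_cast this
  have hle7 : (2 * (K + M + 2) : ℝ) ≤ N := by exact_mod_cast hN
  have hK0 : (0 : ℝ) ≤ K := by positivity
  nlinarith

/-- Even elements other than zero. -/
def Ev : Set G := {x | Even x.1 ∧ x ≠ 0}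

lemma ev_good : Good Ev := by
  refine ⟨⟨(2, 0), ?_, ?_⟩, fun h => h.2 rfl, ?_, ?_, ?_⟩
  · exact ⟨1, rfl⟩
  · simp [Prod.ext_iff]
  · rintro x ⟨h1, h2⟩
    exact ⟨by simpa using h1, by simpa using h2⟩
  · apply Set.infinite_of_injective_forall_mem (f := fun n : ℕ => ((2 * (n : ℤ) + 1, 0) : G))
    · intro a b h
      have := (Prod.ext_iff.1 h).1
      simp only at this
      omega
    · rintro n ⟨⟨m, hm⟩, -⟩
      simp only at hm
      omega
  · intro x
    by_cases hx : Even x.1
    · refine ⟨(x.1 - 1, x.2), (1, 0), ?_, ?_, by simp⟩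
      · rintro ⟨⟨m, hm⟩, -⟩
        obtain ⟨n, hn⟩ := hx
        simp only at hm
        omega
      · rintro ⟨⟨m, hm⟩, -⟩
        simp only at hm
        omega
    · exact ⟨x, 0, fun h => hx h.1, fun h => h.2 rfl, add_zero x⟩

lemma ev_only_two {A : Set G} {r : ℕ} (h : Transition A r Ev) : r = 2 := by
  rcases Nat.lt_or_ge r 2 with hr | hr
  · interval_cases r
    · exact (not_transition_zero h).elim
    · have h1 := transition_one h
      have h2 : ((1, 0) : G) ∈ Ev := by rw [h1]; simp
      obtain ⟨⟨m, hm⟩, -⟩ := h2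
      simp only at hm
      omega
  · rcases Nat.eq_or_lt_of_le hr with hr | hr
    · exact hr.symm
    · exfalso
      have hlt : ∀ x, ell A x < r → x ∉ Ev := by
        intro x hx hxS
        rw [h.2.2.1] at hxS
        simp only [Sphere, Set.mem_ofPred_eq] at hxS
        omega
      obtain ⟨b, hb, hb0⟩ := h.1.exists_notMem_finite (Set.finite_singleton (0 : G))
      have hb1 := IsWord.single (A := A) (Or.inl hb)
      have h1 := hlt b ((ell_le hb1).trans_lt (by omega))
      have h2 := hlt (b + b) ((ell_le (hb1.add hb1)).trans_lt (by omega))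
      have hodd : ¬ Even b.1 := fun he => h1 ⟨he, hb0⟩
      apply h2
      refine ⟨⟨b.1, rfl⟩, fun h0 => hodd ?_⟩
      have := (Prod.ext_iff.1 h0).1
      simp only [Prod.fst_add, Prod.fst_zero] at this
      exact ⟨0, by omega⟩

/-- Additive reformulation. -/
lemma transition_iff {S : Set G} {k : ℕ} :
    (∃ A, Transition A (k + 1) S) ↔ S.Nonempty ∧ ∃ B : Set G, (0 : G) ∈ B ∧
      (∀ x ∈ B, -x ∈ B) ∧ B.Infinite ∧ (∀ x, IsWord B k x ↔ x ∉ S) ∧
        ∀ x, IsWord B (k + 1) x := by
  constructor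
  · rintro ⟨A, h⟩
    have hg := h.2.1
    have hB : Sym0 {x | ell A x ≤ 1} := by
      refine ⟨?_, fun x hx => ?_⟩
      · rw [Set.mem_ofPred_eq, ell_zero]; exact Nat.zero_le 1
      · rw [Set.mem_ofPred_eq] at hx ⊢
        rwa [ell_neg hg]
    have hAB : A ⊆ {x | ell A x ≤ 1} := fun x hx => ell_le (IsWord.single (Or.inl hx))
    have h1 : ∀ (n : ℕ) (x : G), IsWord {x | ell A x ≤ 1} n x → ell A x ≤ n := by
      rintro n x ⟨l, rfl, hl, rfl⟩
      induction l with
      | nil => simp [ell_zero]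
      | cons a l ih =>
        have e1 := ih (fun z hz => hl z (by simp [hz]))
        have e2 : ell A a ≤ 1 := hB.letter.1 (hl a (by simp))
        have e3 := ell_le ((isWord_ell hg a).add (isWord_ell hg l.sum))
        simp only [List.sum_cons, List.length_cons]
        omega
    have h2 := ell_le_of_transition h
    refine ⟨h.2.2.2.1, {x | ell A x ≤ 1}, hB.1, hB.2, h.1.mono hAB, fun x => ?_, fun x => ?_⟩
    · constructor
      · intro hx hxS
        rw [h.2.2.1] at hxS
        have e1 := h1 k x hx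
        simp only [Sphere, Set.mem_ofPred_eq] at hxS
        omega
      · intro hx
        have e1 : ell A x ≠ k + 1 := by
          intro e
          apply hx
          rw [h.2.2.1]
          exact e
        have e2 := h2 x
        exact hB.mono (by omega) ((isWord_ell hg x).mono_set hAB)
    · exact hB.mono (h2 x) ((isWord_ell hg x).mono_set hAB)
  · rintro ⟨hne, B, h0, hsym, hinf, h1, h2⟩
    exact ⟨B, Sym0.transition ⟨h0, hsym⟩ hinf hne h1 h2⟩

/-- **Phase transitions of infinite generating sets of `ℤ × ℤ/2ℤ`.** -/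
theorem result :
    -- (a) the pairs that occur
    {p : ℕ × ℕ∞ | ∃ A S : Set G, Transition A p.1 S ∧ S.encard = p.2} =
        {p | 2 ≤ p.1 ∧ 1 ≤ p.2} ∪ {(1, ⊤)} ∧
    -- (b) the transition sets
    (∀ S : Set G, (∃ (A : Set G) (r : ℕ), Transition A r S) ↔
        S = {0}ᶜ ∨ (S.Nonempty ∧ (0 : G) ∉ S ∧ (∀ x ∈ S, -x ∈ S) ∧ Sᶜ.Infinite ∧
          ∀ x, ∃ y z, y ∉ S ∧ z ∉ S ∧ y + z = x)) ∧
    -- the phase transitions realised by a finite set
    (∀ S : Set G, S.Finite → ∀ r, (∃ A, Transition A r S) ↔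
        2 ≤ r ∧ S.Nonempty ∧ (0 : G) ∉ S ∧ ∀ x ∈ S, -x ∈ S) ∧
    -- the same for every set of lower asymptotic density zero, and for every thin set
    (∀ S : Set G, LowerDensityZero S ∨ Thin S → ∀ r, (∃ A, Transition A r S) ↔
        2 ≤ r ∧ S.Nonempty ∧ (0 : G) ∉ S ∧ ∀ x ∈ S, -x ∈ S) ∧
    -- the set `{0}ᶜ` realises exactly `r = 1`
    (∀ r, (∃ A, Transition A r {0}ᶜ) ↔ r = 1) ∧
    -- all other transition sets realise `r = 2`
    (∀ S : Set G, S ≠ {0}ᶜ → (∃ (A : Set G) (r : ℕ), Transition A r S) →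
        ∃ A, Transition A 2 S) ∧
    -- some infinite transition set realises only `r = 2`
    (∃ S : Set G, S.Infinite ∧ ∀ r, (∃ A, Transition A r S) ↔ r = 2) ∧
    -- in general the realised `r = k + 1` are given by additive `k`-th roots of `Sᶜ`
    (∀ (S : Set G) (k : ℕ), (∃ A, Transition A (k + 1) S) ↔
      S.Nonempty ∧ ∃ B : Set G, (0 : G) ∈ B ∧ (∀ x ∈ B, -x ∈ B) ∧ B.Infinite ∧
        (∀ x, IsWord B k x ↔ x ∉ S) ∧ ∀ x, IsWord B (k + 1) x) := by
  have thin_iff : ∀ S : Set G, Thin S → ∀ r, (∃ A, Transition A r S) ↔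
        2 ≤ r ∧ S.Nonempty ∧ (0 : G) ∉ S ∧ ∀ x ∈ S, -x ∈ S := by
    intro S hS r
    constructor
    · rintro ⟨A, h⟩
      have hr : 2 ≤ r := by
        by_contra hlt
        have : r = 0 ∨ r = 1 := by omega
        rcases this with rfl | rfl
        · exact not_transition_zero h
        · have h1 := transition_one h
          apply hS.compl_infinite
          rw [h1, compl_compl]
          exact Set.finite_singleton _
      obtain ⟨h1, h2, h3, -, -⟩ := transition_good h hr
      exact ⟨hr, h1, h2, h3⟩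
    · rintro ⟨hr, h1, h2, h3⟩
      obtain ⟨k, rfl⟩ : ∃ k, r = k + 1 := ⟨r - 1, by omega⟩
      exact thin_occurs hS h3 h2 h1 (by omega)
  have h1iff : ∀ r, (∃ A, Transition A r ({0}ᶜ : Set G)) ↔ r = 1 := by
    intro r
    constructor
    · rintro ⟨A, h⟩
      by_contra hne
      have : r = 0 ∨ 2 ≤ r := by omega
      rcases this with rfl | hr
      · exact not_transition_zero h
      · obtain ⟨-, -, -, h4, -⟩ := transition_good h hr
        rw [compl_compl] at h4
        exact h4 (Set.finite_singleton _)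
    · rintro rfl
      exact ⟨_, univ_transition⟩
  refine ⟨?_, ?_, fun S hS => thin_iff S (thin_of_finite hS), fun S hS => thin_iff S
    (hS.elim thin_of_density id), h1iff, ?_, ?_, fun S k => transition_iff⟩
  · ext ⟨r, s⟩
    simp only [Set.mem_ofPred_eq, Set.mem_union, Set.mem_singleton_iff, Prod.mk.injEq]
    constructor
    · rintro ⟨A, S, h, rfl⟩
      have : r = 0 ∨ r = 1 ∨ 2 ≤ r := by omega
      rcases this with rfl | rfl | hr
      · exact (not_transition_zero h).elim
      · right
        refine ⟨rfl, ?_⟩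
        rw [transition_one h]
        exact Set.encard_eq_top infinite_compl_zero
      · left
        exact ⟨hr, Set.one_le_encard_iff_nonempty.2 h.2.2.2.1⟩
    · rintro (⟨hr, hs⟩ | ⟨rfl, rfl⟩)
      · obtain ⟨k, rfl⟩ : ∃ k, r = k + 1 := ⟨r - 1, by omega⟩
        have hk : 1 ≤ k := by omega
        rcases eq_or_ne s ⊤ with rfl | hs'
        · obtain ⟨A, hA⟩ := thin_occurs fac_thin fac_sym fac_zero fac_infinite.nonempty hk
          exact ⟨A, Fac, hA, Set.encard_eq_top fac_infinite⟩
        · obtain ⟨n, rfl⟩ := ENat.ne_top_iff_exists.1 hs'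
          have hn : 1 ≤ n := by exact_mod_cast hs
          obtain ⟨m, rfl⟩ : ∃ m, n = m + 1 := ⟨n - 1, by omega⟩
          obtain ⟨S, h1, h2, h3, h4⟩ := exists_sym_finite m
          have hne : S.Nonempty := by
            rw [← Set.one_le_encard_iff_nonempty, h2]
            exact le_add_self
          obtain ⟨A, hA⟩ := thin_occurs (thin_of_finite h1) h4 h3 hne hk
          exact ⟨A, S, hA, by rw [h2]; rfl⟩
      · exact ⟨_, _, univ_transition, Set.encard_eq_top infinite_compl_zero⟩
  · intro S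
    constructor
    · rintro ⟨A, r, h⟩
      have : r = 0 ∨ r = 1 ∨ 2 ≤ r := by omega
      rcases this with rfl | rfl | hr
      · exact (not_transition_zero h).elim
      · exact Or.inl (transition_one h)
      · exact Or.inr (transition_good h hr)
    · rintro (rfl | h)
      · exact ⟨_, _, univ_transition⟩
      · exact ⟨_, _, good_occurs h⟩
  · rintro S hS ⟨A, r, h⟩
    have : r = 0 ∨ r = 1 ∨ 2 ≤ r := by omega
    rcases this with rfl | rfl | hr
    · exact (not_transition_zero h).elim
    · exact absurd (transition_one h) hS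
    · exact ⟨_, good_occurs (transition_good h hr)⟩
  · refine ⟨Ev, ?_, fun r => ⟨?_, ?_⟩⟩
    · apply Set.infinite_of_injective_forall_mem (f := fun n : ℕ => ((2 * (n : ℤ) + 2, 0) : G))
      · intro a b h
        have := (Prod.ext_iff.1 h).1
        simp only at this
        omega
      · intro n
        refine ⟨⟨(n : ℤ) + 1, by ring⟩, fun h0 => ?_⟩
        have := (Prod.ext_iff.1 h0).1
        simp only [Prod.fst_zero] at this
        omega
    · rintro ⟨A, h⟩
      exact ev_only_two h
    · rintro rfl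
      exact ⟨_, good_occurs ev_good⟩

end Pool.Agent.Results.MP_a61939_al.AllTransitions
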